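import Mathlib
import Pool.Agent.H5.TB.Assemble

set_option autoImplicit false

namespace Pool.Agent.Results.MP_43aa21_an.NoTBasis

open Pool.Agent.H5.TB

/-- Over the reals and over the complex numbers there is a Banach space with a sequence that is
both a double operational basis and a double generalized summation basis, but without a
`T`-basis for any consistent matrix `T`, triangular or not. -/
theorem result (𝕜 : Type) [RCLike 𝕜] :
    ∃ (E : Type) (_ : NormedAddCommGroup E) (_ : NormedSpace 𝕜 E), CompleteSpace E ∧
      (∃ x : ℕ → E, IsDoubleOperationalBasis 𝕜 x ∧ IsDoubleGenSummationBasis 𝕜 x) ∧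
      ¬ ∃ (t : ℕ → ℕ → 𝕜) (x : ℕ → E), Consistent t ∧ IsTBasis t x :=
  (main 𝕜).2

end Pool.Agent.Results.MP_43aa21_an.NoTBasis
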