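import Mathlib
import Pool.Agent.H5.TB.Triang2

set_option autoImplicit false

namespace Pool.Agent.Results.MP_43aa21_an.TriangularTBasis

open Pool.Agent.H5.TB

/-- Every `T`-basis of a Banach space, for an arbitrary consistent matrix `T`, is a triangular
`T'`-basis for a suitable triangular consistent matrix `T'`. -/
theorem result {𝕜 E : Type*} [RCLike 𝕜] [NormedAddCommGroup E] [NormedSpace 𝕜 E]
    [CompleteSpace E] (t : ℕ → ℕ → 𝕜) (x : ℕ → E) (hc : Consistent t) (hB : IsTBasis t x) :
    ∃ t' : ℕ → ℕ → 𝕜, Consistent t' ∧ (∀ n j, n < j → t' n j = 0) ∧ IsTBasis t' x :=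
  tbasis_triangular hc hB

end Pool.Agent.Results.MP_43aa21_an.TriangularTBasis
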